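import Mathlib
import Pool.Agent.H129.LN.Final

/-!
# A bipartite circle graph whose independence complex is not a wedge of spheres

The example is an explicit chord diagram with 74 chords (`Pool.Agent.H129.LN.chords`); its
intersection graph is connected, bipartite, and has 122 edges. The independence complex has
2-torsion in its integral singular homology, in degree 20.

The proof: a sequence of 64 moves (`Pool.Agent.H129.LN.moves`, checked by the kernel) transforms the
graph into a graph on 11 vertices. A move deletes a vertex `v` for which some `w` not adjacent to `v`
has `N(w) ⊆ N(v)`, or adds or deletes an edge `uv` for which some `w` not adjacent to `u`, `v` has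
`N(w) ⊆ N(u) ∪ N(v)` (these moves do not change the homotopy type of the independence complex), or
replaces an induced path `v1, w1, w2, v2` with inner vertices of degree two by a single vertex (this
removes a suspension, which is used in the form of a Mayer-Vietoris argument). The 2-torsion in the
first homology of the last independence complex is certified by an integral cycle `z`, a 2-chain with
boundary `2 z`, and a cocycle mod 2 which does not vanish on `z`. Wedges of spheres have no 2-torsion.
-/

set_option autoImplicit false

open Metric

noncomputable section

namespace Pool.Agent.Results.MP_dce81a_co.LandoNotWedge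

/-- A circle graph: the vertices are chords of the unit circle of the complex plane with pairwise
distinct endpoints, and two different vertices are adjacent exactly when the two chords cross. -/
def IsCircleGraph {V : Type} (G : SimpleGraph V) : Prop :=
  ∃ a b : V → Circle, Function.Injective (Sum.elim a b : V ⊕ V → Circle) ∧
    ∀ v w, G.Adj v w ↔
      v ≠ w ∧ (segment ℝ (a v : ℂ) (b v : ℂ) ∩ segment ℝ (a w : ℂ) (b w : ℂ)).Nonempty

/-- The geometric realization of the independence complex of a finite graph `G`: the points of the
standard simplex (in barycentric coordinates indexed by the vertices) whose support is an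
independent set of `G`. -/
def IndepComplex {V : Type} [Fintype V] (G : SimpleGraph V) : Type :=
  {x : V → ℝ // x ∈ stdSimplex ℝ V ∧ G.IsIndepSet {v | x v ≠ 0}}

instance {V : Type} [Fintype V] (G : SimpleGraph V) : TopologicalSpace (IndepComplex G) :=
  instTopologicalSpaceSubtype

/-- The unit sphere of dimension `d`. -/
abbrev Sph (d : ℕ) : Type := sphere (0 : EuclideanSpace ℝ (Fin (d + 1))) 1

/-- The base point of the sphere. -/
def basePt (d : ℕ) : Sph d := ⟨EuclideanSpace.single 0 1, by simp⟩

/-- The wedge (one-point union at the base points) of the spheres of dimensions
`d 0, ..., d (k - 1)`, as the subspace of their product where all coordinates, except possibly one,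
are the base points. For `k = 0` it is a point. -/
def Wedge {k : ℕ} (d : Fin k → ℕ) : Type :=
  {x : ∀ i, Sph (d i) // ∀ i j, i ≠ j → x i = basePt (d i) ∨ x j = basePt (d j)}

instance {k : ℕ} (d : Fin k → ℕ) : TopologicalSpace (Wedge d) := instTopologicalSpaceSubtype

/-- **Main theorem.** There is a bipartite circle graph (on 74 vertices) whose independence complex
is not homotopy equivalent to any finite wedge of spheres (of possibly different dimensions). -/
theorem result : ∃ G : SimpleGraph (Fin 74), IsCircleGraph G ∧ G.Colorable 2 ∧
    ∀ (k : ℕ) (d : Fin k → ℕ),
      IsEmpty (ContinuousMap.HomotopyEquiv (IndepComplex G) (Wedge d)) :=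
  Pool.Agent.H129.LN.main

end Pool.Agent.Results.MP_dce81a_co.LandoNotWedge
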